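import Pool.Agent.H53.MW.Targets

/-!
MP_c62aed_lc, board mwk: row SV. A clause which is not inside the cube is violated by few points
of a spread set.
-/

set_option autoImplicit false

namespace Pool.Agent.H76.MW

open Finset
open Pool.Agent.H53.MC (U Viol scope Ins cnt H1)
open Pool.Agent.H53.MW

/-- The number of scopes grows when the scope of a clause is added. -/
theorem cnt_lt {n M k : ℕ} (g : Fin M → Fin k → Fin n) (A : Finset (Fin n)) (j : Fin M)
    (h : ¬ scope g j ⊆ A) : cnt g A + 1 ≤ cnt g (A ∪ scope g j) := by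
  classical
  unfold cnt
  apply Nat.succ_le_of_lt
  apply Finset.card_lt_card
  rw [Finset.ssubset_iff_of_subset]
  · refine ⟨j, ?_, ?_⟩
    · simp only [Finset.mem_filter, Finset.mem_univ, true_and]
      exact Finset.subset_union_right
    · simp only [Finset.mem_filter, Finset.mem_univ, true_and]
      exact h
  · intro i hi
    simp only [Finset.mem_filter, Finset.mem_univ, true_and] at hi ⊢
    exact hi.trans Finset.subset_union_left

theorem pf_SV : T_SV := by
  classical
  intro n M k g d s₀ w hg hH p Q hS hw c hc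
  by_cases hsub : scope g c.1 ⊆ p.1
  · have hE : IsEmpty {y // y ∈ Q ∧ Viol g c y} := ⟨by
      rintro ⟨y, hy, hv⟩
      apply hc
      refine ⟨hsub, fun i => ?_⟩
      have hmem : g c.1 i ∈ p.1 := hsub (Finset.mem_image_of_mem _ (Finset.mem_univ i))
      rw [← hS.inc y hy _ hmem]
      exact hv i⟩
    rw [Nat.card_of_isEmpty, Nat.zero_mul]
    exact Nat.zero_le _
  · by_cases hne : ∃ y, y ∈ Q ∧ Viol g c y
    · obtain ⟨y0, hy0, hv0⟩ := hne
      have hcardA : (p.1 ∪ scope g c.1).card ≤ w + k := by
        refine (Finset.card_union_le _ _).trans ?_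
        have h1 : (scope g c.1).card ≤ k := by
          refine Finset.card_image_le.trans ?_
          simp
        omega
      have h1 : cnt g (p.1 ∪ scope g c.1) ≤ s₀ := hH _ hcardA
      have h2 := cnt_lt g p.1 c.1 hsub
      have h3 : wt g d s₀ p.1 * 2 ^ d ≤ wt g d s₀ (p.1 ∪ scope g c.1) := by
        unfold wt
        rw [← pow_add]
        apply Nat.pow_le_pow_right (by norm_num)
        rw [min_eq_left h1, min_eq_left (by omega)]
        calc d * cnt g p.1 + d = d * (cnt g p.1 + 1) := by ring
          _ ≤ d * cnt g (p.1 ∪ scope g c.1) := Nat.mul_le_mul_left _ h2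
      have h4 : Nat.card {y // y ∈ Q ∧ Viol g c y} ≤ (cb Q (p.1 ∪ scope g c.1) y0).card := by
        rw [Nat.card_eq_fintype_card, Fintype.card_subtype]
        apply Finset.card_le_card
        intro y hy
        simp only [Finset.mem_filter, Finset.mem_univ, true_and] at hy
        unfold cb
        rw [Finset.mem_filter]
        refine ⟨hy.1, fun i hi => ?_⟩
        rcases Finset.mem_union.1 hi with hi | hi
        · rw [hS.inc y hy.1 i hi, hS.inc y0 hy0 i hi]
        · obtain ⟨l, -, rfl⟩ := Finset.mem_image.1 hi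
          rw [hy.2 l, hv0 l]
      have h5 := hS.spr (p.1 ∪ scope g c.1) y0 Finset.subset_union_left
      have hpos : 0 < wt g d s₀ p.1 := by unfold wt; positivity
      refine Nat.le_of_mul_le_mul_right ?_ hpos
      calc Nat.card {y // y ∈ Q ∧ Viol g c y} * 2 ^ d * wt g d s₀ p.1
          = Nat.card {y // y ∈ Q ∧ Viol g c y} * (wt g d s₀ p.1 * 2 ^ d) := by ring
        _ ≤ (cb Q (p.1 ∪ scope g c.1) y0).card * wt g d s₀ (p.1 ∪ scope g c.1) :=
            Nat.mul_le_mul h4 h3
        _ ≤ Q.card * wt g d s₀ p.1 := h5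
    · have hE : IsEmpty {y // y ∈ Q ∧ Viol g c y} := ⟨fun y => hne ⟨y.1, y.2⟩⟩
      rw [Nat.card_of_isEmpty, Nat.zero_mul]
      exact Nat.zero_le _

end Pool.Agent.H76.MW
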